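import Pool.Agent.Helper3.FewP.Goals2

/-!
Packet STR (FewPoints, MP_d3128a_ag, block STRIP): independence for the points of a strip.
-/

set_option autoImplicit false

namespace Pool.Agent.Helper90.FewP

open Pool.Agent.Helper3.FewP

/-- translation -/
def sft (i : ℤ) (x : ℤ × ℤ) : ℤ × ℤ := (x.1, x.2 - i)

lemma sft_inj (i : ℤ) : Function.Injective (sft i) := by
  intro x y h
  unfold sft at h
  rw [Prod.mk.injEq] at h
  exact Prod.ext h.1 (by linarith [h.2])

lemma sft_line (i : ℤ) (P : ℕ) (x : ℤ × ℤ) :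
    (sft i x).1 - (P : ℤ) * (sft i x).2 = x.1 - (P : ℤ) * x.2 + (P : ℤ) * i := by
  show x.1 - (P : ℤ) * (x.2 - i) = _
  ring

theorem transfer (hU : G_UNI) (F : Type) [Field F] [CharZero F] (m P : ℕ) (i : ℤ)
    (S : Finset (ℤ × ℤ)) (idx : ℤ → ℕ)
    (h : (∀ x ∈ S.image (sft i), idx (x.1 - P * x.2) < m) ∧
      (∀ x ∈ S.image (sft i), ∀ y ∈ S.image (sft i), idx (x.1 - P * x.2) = idx (y.1 - P * y.2) →
        x.1 - P * x.2 = y.1 - P * y.2) ∧
      (∀ x ∈ S.image (sft i),
        ((S.image (sft i)).filter fun y => y.1 - P * y.2 = x.1 - P * x.2).card +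
          idx (x.1 - P * x.2) ≤ m)) :
    LinearIndependent F (fun x : S => vec F m x.1) := by
  obtain ⟨h1, h2, h3⟩ := h
  refine hU F m P S (fun c => idx (c + P * i)) ?_ ?_ ?_
  · intro x hx
    have h4 := h1 _ (Finset.mem_image_of_mem _ hx)
    rwa [sft_line] at h4
  · intro x hx y hy h
    have h4 := h2 _ (Finset.mem_image_of_mem _ hx) _ (Finset.mem_image_of_mem _ hy)
    rw [sft_line, sft_line] at h4
    have h5 := h4 h
    linarith
  · intro x hx
    have h4 := h3 _ (Finset.mem_image_of_mem _ hx)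
    rw [Finset.filter_image, Finset.card_image_of_injective _ (sft_inj i)] at h4
    simp only [sft_line, add_left_inj] at h4
    exact h4

lemma strip_sft (k P N : ℕ) (i : ℤ) (x : ℤ × ℤ) (hx : Strip k P N i x) :
    Strip k P N 0 (sft i x) := by
  obtain ⟨h1, h2, h3, h4⟩ := hx
  have e : DD P (sft i x).1 (sft i x).2 = DD P x.1 x.2 - 2 * (P : ℤ) ^ 2 * i := by
    unfold DD sft
    ring
  refine ⟨h1, h2, ?_, ?_⟩
  · rw [e, mul_zero]
    linarith
  · rw [e, zero_add]
    have : 2 * (P : ℤ) ^ 2 * (i + k) = 2 * (P : ℤ) ^ 2 * i + 2 * (P : ℤ) ^ 2 * k := by ring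
    linarith

theorem t : G_UNI → G_CTA → G_CTB → G_STR := by
  intro hU hA hB F _ _ k P m N s i S hk hP hadm hS
  have hS' : ∀ x ∈ S.image (sft i), Strip k P N 0 x := by
    intro x hx
    obtain ⟨y, hy, rfl⟩ := Finset.mem_image.1 hx
    exact strip_sft k P N i y (hS y hy)
  rcases hadm with ⟨hm, hN⟩ | ⟨hm, hN⟩
  · subst hN
    subst hm
    exact transfer hU F _ P i S (idxA s) (hA k P s _ hk hP hS')
  · have hle : 2 * s + 1 ≤ 2 * k * P := by
      have h1 : P * (2 * s + 1) ≤ P * (2 * k * P) := by omega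
      exact Nat.le_of_mul_le_mul_left h1 (by omega)
    obtain ⟨N', hN'⟩ : ∃ N', N' + 2 * s + 1 = 2 * k * P := ⟨2 * k * P - (2 * s + 1), by omega⟩
    have hNN : N = P * N' := by
      have h1 : P * (2 * k * P) = P * N' + P * (2 * s + 1) := by
        rw [← hN']; ring
      omega
    subst hNN
    exact transfer hU F _ P i S (idxB s) (hB k P m s N' _ hk hP hm hN' hS')

end Pool.Agent.Helper90.FewP
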