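import Pool.Agent.Helper3.FewP.Goals3

/-!
Packet BK2 (FewPoints, MP_d3128a_ag, block STRIP): the blocks of `k` points.
-/

set_option autoImplicit false

namespace Pool.Agent.Helper90.FewP.BK2

open Pool.Agent.Helper3.FewP

/-- the point of a column -/
def pt {N k : ℕ} (s0 : Fin N × Fin k → ℤ) (c : Fin N × Fin k) : ℤ × ℤ :=
  (((c.1 : ℕ) : ℤ), ((c.2 : ℕ) : ℤ) + k * s0 c)

lemma pt_inj {N k : ℕ} (s0 : Fin N × Fin k → ℤ) : Function.Injective (pt s0) := by
  rintro ⟨j, r⟩ ⟨j', r'⟩ h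
  unfold pt at h
  rw [Prod.mk.injEq] at h
  obtain ⟨h1, h2⟩ := h
  simp only at h1 h2
  have e1 : j = j' := Fin.ext (by exact_mod_cast h1)
  have hr := r.isLt
  have hr' := r'.isLt
  have e2 : ((r : ℕ) : ℤ) = ((r' : ℕ) : ℤ) := by
    have h3 := congrArg (fun z : ℤ => z % k) h2
    simp only [Int.add_mul_emod_self_left] at h3
    rwa [Int.emod_eq_of_lt (by positivity) (by exact_mod_cast hr),
      Int.emod_eq_of_lt (by positivity) (by exact_mod_cast hr')] at h3
  have e3 : r = r' := Fin.ext (by exact_mod_cast e2)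
  rw [e1, e3]

theorem t : G_STR → G_BK2 := by
  intro hS k P u N i0 s0 hk hP hadm hc i
  have h1 : ∀ x ∈ (Finset.univ : Finset {c : Fin N × Fin k // i0 c = i}).image
      (fun c => pt s0 c.1), Strip 1 P N ((i : ℕ) : ℤ) x := by
    intro x hx
    obtain ⟨c, -, rfl⟩ := Finset.mem_image.1 hx
    obtain ⟨c, hci⟩ := c
    obtain ⟨h2, h3⟩ := hc c
    rw [hci] at h2 h3
    refine ⟨Int.natCast_nonneg _, ?_, h2, ?_⟩
    · show ((c.1 : ℕ) : ℤ) < N
      exact_mod_cast c.1.isLt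
    · rw [Nat.cast_one]
      exact h3
  have h2 := hS ℚ 1 P u N 0 ((i : ℕ) : ℤ) _ le_rfl hP hadm h1
  have h3 := h2.comp (fun c : {c : Fin N × Fin k // i0 c = i} =>
    (⟨pt s0 c.1, Finset.mem_image_of_mem (fun c : {c : Fin N × Fin k // i0 c = i} => pt s0 c.1)
      (Finset.mem_univ c)⟩ : ((Finset.univ : Finset {c : Fin N × Fin k // i0 c = i}).image
      (fun c => pt s0 c.1) : Finset (ℤ × ℤ)))) (by
    intro a b hab
    rw [Subtype.mk.injEq] at hab
    exact Subtype.ext (pt_inj s0 hab))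
  exact h3

end Pool.Agent.Helper90.FewP.BK2
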